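import Pool.Agent.Helper99.SC.GeoStmts

/-!
# SG5: closure for the local edges of the T rows
-/

set_option autoImplicit false

namespace Pool.Agent.Helper81.SC.LocT

open Pool.Agent.Helper99.SC

/-- an edge crossing a local edge has an end strictly inside the node -/
lemma inside {s t s' t' : Pl} (h1 : s.1 = t.1) (h2 : s.2.1 = 0) (h3 : t.2.1 = 0)
    (h4 : s.2.2.1 = t.2.2.1) (hc : PCross s t s' t') :
    ∃ z, (z = s' ∨ z = t') ∧ z.1 = s.1 ∧ z.2.1 = 0 ∧ z.2.2.1 = s.2.2.1 ∧
      ((s.2.2.2 < z.2.2.2 ∧ z.2.2.2 < t.2.2.2) ∨ (t.2.2.2 < z.2.2.2 ∧ z.2.2.2 < s.2.2.2)) := by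
  unfold PCross Helper99.SC.btw plt at hc
  rcases hc with ⟨h | h, _⟩ | ⟨h | h, _⟩
  · exact ⟨s', Or.inl rfl, by omega⟩
  · exact ⟨s', Or.inl rfl, by omega⟩
  · exact ⟨t', Or.inr rfl, by omega⟩
  · exact ⟨t', Or.inr rfl, by omega⟩

/-- the same with exchanged roles -/
lemma inside' {s t s' t' : Pl} (h1 : s'.1 = t'.1) (h2 : s'.2.1 = 0) (h3 : t'.2.1 = 0)
    (h4 : s'.2.2.1 = t'.2.2.1) (hc : PCross s t s' t') :
    ∃ z, (z = s ∨ z = t) ∧ z.1 = s'.1 ∧ z.2.1 = 0 ∧ z.2.2.1 = s'.2.2.1 ∧
      ((s'.2.2.2 < z.2.2.2 ∧ z.2.2.2 < t'.2.2.2) ∨ (t'.2.2.2 < z.2.2.2 ∧ z.2.2.2 < s'.2.2.2)) := by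
  unfold PCross Helper99.SC.btw outs at hc
  rcases hc with ⟨⟨ha, hb⟩ | ⟨ha, hb⟩, ⟨hc, hd⟩ | ⟨hc, hd⟩⟩ | ⟨⟨ha, hb⟩ | ⟨ha, hb⟩, ⟨hc, hd⟩ | ⟨hc, hd⟩⟩
  · exact ⟨s, Or.inl rfl, by unfold plt at *; omega⟩
  · exact ⟨t, Or.inr rfl, by unfold plt at *; omega⟩
  · exact ⟨t, Or.inr rfl, by unfold plt at *; omega⟩
  · exact ⟨s, Or.inl rfl, by unfold plt at *; omega⟩
  · exact ⟨s, Or.inl rfl, by unfold plt at *; omega⟩
  · exact ⟨t, Or.inr rfl, by unfold plt at *; omega⟩
  · exact ⟨t, Or.inr rfl, by unfold plt at *; omega⟩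
  · exact ⟨s, Or.inl rfl, by unfold plt at *; omega⟩

lemma opAt_zero (ops : List Op) : opAt ops 0 = (9, 0) := by simp [opAt]

section

variable {ops : List Op} {X : ℕ → ℕ → Bool} {b : Bool} {s t : Pl}

/-- the page of a local edge -/
lemma pgHT (h : HT ops s t) (hp : Pg ops X b s t) : PT ops X b s t := by
  rcases hp with hp | hp | hp | hp | hp
  · exfalso
    have h1 := hp.1.2
    have h2 := h.2.1
    omega
  · exfalso
    have h1 := hp.1.2.2.2.2
    have h2 := h.2.1
    omega
  · exact hp
  · exfalso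
    have h1 := hp.1
    have h2 := h.1
    rw [h1.1] at h2
    have h3 := h1.2.1
    rw [← h2] at h3
    simp [opAt] at h3
  · exfalso
    have h1 := hp.1
    have h2 := h.2.2.2.2
    have h3 := h.2.1
    rcases h1 with h1 | h1
    · rw [h1.1] at h2; simp at h2
    · omega

/-- sources of the T rows -/
lemma src (hp : Pg ops X b s t) (hs : s.2.1 = 0) :
    s.2.2.2 = 0 ∨ s.2.2.2 = 1 ∨ ((opAt ops s.1).1 = 3 ∧ (s.2.2.2 = 6 ∨ s.2.2.2 = 9 ∨
      (s.2.2.2 = 5 ∧ b = X s.1 s.2.2.1))) := by
  rcases hp with hp | hp | hp | hp | hp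
  · exfalso
    have h1 := hp.1.2
    omega
  · exfalso
    have h1 := hp.1.2.2.2.2
    omega
  · have h2 := hp.1.2.2.2.2
    omega
  · have h1 := hp.1.1
    rw [h1]; simp
  · rcases hp.1 with h1 | h1
    · rw [h1.1]; simp
    · have h2 := hp.2
      rcases h2 with h2 | h2 | h2 | h2 | h2
      · rw [h2.1]; simp
      · omega
      · omega
      · obtain ⟨-, h3, h4⟩ := h2
        rcases h1.2.2 with h5 | h5
        · omega
        · have : s.2.2.2 = 0 ∨ s.2.2.2 = 5 := by omega
          rcases this with h6 | h6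
          · exact Or.inl h6
          · exact Or.inr (Or.inr ⟨h3, Or.inr (Or.inr ⟨h6, h4⟩)⟩)
      · omega

/-- targets of a row with code 2 -/
lemma tgt2 (hp : Pg ops X b s t) (ht : t.2.1 = 0) (ho : opAt ops t.1 = (2, t.2.2.1))
    (h1 : 1 < t.2.2.2) (h2 : t.2.2.2 < 8) :
    (b = !X t.1 (t.2.2.1 - 1)) ∨ (t.2.2.2 = 4 ∧ (PR ops X b s t ∨ PT ops X b s t)) := by
  have hc : (opAt ops t.1).1 = 2 := by rw [ho]
  rcases hp with hp | hp | hp | hp | hp
  · right
    refine ⟨?_, Or.inl hp⟩
    have h3 := hp.1.2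
    have h4 : IsTT ops t := by
      rcases h3 with h3 | h3 | h3
      · omega
      · omega
      · exact h3.1
    have h5 := h4.2
    clear h3 h4 hp
    rcases h5 with h5 | h5 | h5 | h5 | h5 | h5
    · exact h5.1
    · exfalso; have := h5.1; clear h5 ho; omega
    · exfalso; have := h5.1; clear h5 ho; omega
    · exfalso; have := h5.2; clear h5 ho; omega
    · exfalso; have := h5.1; clear h5 ho; omega
    · exfalso; rw [h5.2] at hc; simp at hc
  · exfalso
    have h3 := hp.1.2.2.2.2
    have h4 := hp.1.2.1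
    omega
  · right
    refine ⟨?_, Or.inr hp⟩
    have h3 := hp.1.2.2.2.2
    have h4 := hp.1.1
    rw [← h4] at hc
    clear ho
    rcases h3 with ⟨-, h5, h6⟩ | ⟨h5, h6⟩
    · omega
    · omega
  · exfalso
    have h3 := hp.1.2.1
    omega
  · rcases hp.1 with h3 | h3
    · exfalso
      rw [h3.2] at hc
      simp [opAt] at hc
    · left
      obtain ⟨h4, h5, h6⟩ := h3
      rcases h6 with h6 | h6
      · omega
      · have hc' : (opAt ops s.1).1 = 2 := by rw [h4]; exact hc
        have h7 : s.2.2.1 = t.2.2.1 - 1 := by omega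
        rw [← h4, ← h7]
        rcases hp.2 with h8 | h8 | h8 | h8 | h8
        · exfalso
          rw [h8.1] at hc'
          simp [opAt] at hc'
        · omega
        · omega
        · omega
        · exact h8.2.2

/-- targets of a row with code 3 -/
lemma tgt3 (hp : Pg ops X b s t) (ht : t.2.1 = 0) (hc : (opAt ops t.1).1 = 3)
    (h1 : (3 < t.2.2.2 ∧ t.2.2.2 < 6) ∨ (9 < t.2.2.2 ∧ t.2.2.2 < 12)) :
    (b = X t.1 t.2.2.1) ∨
      ((t.2.2.2 = 4 ∨ t.2.2.2 = 11) ∧ (PR ops X b s t ∨ PT ops X b s t ∨ PP ops b s t)) := by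
  rcases hp with hp | hp | hp | hp | hp
  · right
    refine ⟨?_, Or.inl hp⟩
    have h3 := hp.1.2
    have h4 : IsTT ops t := by
      rcases h3 with h3 | h3 | h3
      · omega
      · omega
      · exact h3.1
    have h5 := h4.2
    omega
  · exfalso
    have h3 := hp.1.2.2.2.2
    have h4 := hp.1.2.1
    omega
  · right
    refine ⟨?_, Or.inr (Or.inl hp)⟩
    have h3 := hp.1.2.2.2.2
    omega
  · right
    refine ⟨?_, Or.inr (Or.inr hp)⟩
    have h4 : IsTT ops t := hp.1.2.2
    have h5 := h4.2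
    omega
  · left
    rcases hp.1 with h3 | h3
    · exfalso
      rw [h3.2] at hc
      simp [opAt] at hc
    · obtain ⟨h4, h5, h6⟩ := h3
      have hc' : (opAt ops s.1).1 = 3 := by rw [h4]; exact hc
      rcases h6 with h6 | h6
      · omega
      · have h7 : s.2.2.1 = t.2.2.1 := by omega
        rw [← h4, ← h7]
        rcases hp.2 with h8 | h8 | h8 | h8 | h8
        · exfalso
          rw [h8.1] at hc'
          simp [opAt] at hc'
        · omega
        · omega
        · exact h8.2.2
        · omega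

/-- the operation of a T row is an operation of the program -/
lemma opAt_mem {i : ℕ} (h : (opAt ops i).1 < 9) :
    0 < i ∧ i - 1 < ops.length ∧ ops.getD (i - 1) (9, 0) = opAt ops i ∧ opAt ops i ∈ ops := by
  unfold opAt at h ⊢
  by_cases hi : i = 0
  · simp [hi] at h
  rw [if_neg hi] at h ⊢
  have h1 : i - 1 < ops.length := by
    by_contra hcon
    rw [List.getD_eq_default _ _ (by omega)] at h
    simp at h
  refine ⟨by omega, h1, rfl, ?_⟩
  rw [List.getD_eq_getElem _ _ h1]
  exact List.getElem_mem h1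


/-- moving the target of a regular edge from slot 4 to slot 8 -/
lemma hr8 {z : Pl} (h : HR ops s z) (z2 : z.2.1 = 0) (h4 : z.2.2.2 = 4) (h8 : t.2.2.2 = 8)
    (hrow : t.1 = z.1) (hcol : t.2.2.1 = z.2.2.1) (hTT : IsTT ops t)
    (hn : ¬ (s.2.1 = 3 ∧ s.2.2.1 = z.2.2.1)) : HR ops s t := by
  obtain ⟨r1, r5⟩ := h
  refine ⟨r1, Or.inr (Or.inr ⟨hTT, ?_⟩)⟩
  rcases r5 with r5 | r5 | r5
  · exfalso; have := r5.1; omega
  · exfalso; have := r5.1; omega
  · obtain ⟨-, r6⟩ := r5
    rcases r6 with ⟨a1, a2, a3⟩ | ⟨a1, a2, a3, a4⟩ | ⟨a1, a2, a3⟩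
    · exact Or.inl ⟨a1, a2, by omega⟩
    · exact Or.inr (Or.inl ⟨a1, by omega, by omega, by omega⟩)
    · exact Or.inr (Or.inr ⟨a1, by omega, by omega⟩)

/-- moving the target of a regular edge from slot 4 to slot 3 -/
lemma hr3 {z : Pl} (h : HR ops s z) (z2 : z.2.1 = 0) (h4 : z.2.2.2 = 4) (h8 : t.2.2.2 = 3)
    (hrow : t.1 = z.1) (hcol : t.2.2.1 = z.2.2.1) (hTT : IsTT ops t)
    (hn : ¬ (s.2.1 = 1 ∧ s.2.2.2 = 1 ∧ s.2.2.1 = z.2.2.1)) : HR ops s t := by
  obtain ⟨r1, r5⟩ := h
  refine ⟨r1, Or.inr (Or.inr ⟨hTT, ?_⟩)⟩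
  rcases r5 with r5 | r5 | r5
  · exfalso; have := r5.1; omega
  · exfalso; have := r5.1; omega
  · obtain ⟨-, r6⟩ := r5
    rcases r6 with ⟨a1, a2, a3⟩ | ⟨a1, a2, a3, a4⟩ | ⟨a1, a2, a3⟩
    · exact Or.inl ⟨a1, a2, by omega⟩
    · exact Or.inr (Or.inl ⟨a1, by omega, by omega, by omega⟩)
    · exact Or.inr (Or.inr ⟨a1, by omega, by omega⟩)

/-- moving the target of a regular edge from slot 11 to slot 12 -/
lemma hr12 {z : Pl} (h : HR ops s z) (z2 : z.2.1 = 0) (h4 : z.2.2.2 = 11) (h8 : t.2.2.2 = 12)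
    (hrow : t.1 = z.1) (hcol : t.2.2.1 = z.2.2.1) (hTT : IsTT ops t)
    (hn : ¬ (s.2.1 = 3 ∧ s.2.2.2 = 4 ∧ s.2.2.1 = z.2.2.1)) : HR ops s t := by
  obtain ⟨r1, r5⟩ := h
  refine ⟨r1, Or.inr (Or.inr ⟨hTT, ?_⟩)⟩
  rcases r5 with r5 | r5 | r5
  · exfalso; have := r5.1; omega
  · exfalso; have := r5.1; omega
  · obtain ⟨-, r6⟩ := r5
    rcases r6 with ⟨a1, a2, a3⟩ | ⟨a1, a2, a3, a4⟩ | ⟨a1, a2, a3⟩
    · exact Or.inl ⟨a1, a2, by omega⟩
    · exact Or.inr (Or.inl ⟨a1, by omega, by omega, by omega⟩)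
    · exact Or.inr (Or.inr ⟨a1, by omega, by omega⟩)

/-- pages of the edges to slot 4 of a row with code 2 -/
lemma pr2 (h : PR ops X b s t) (ho : opAt ops t.1 = (2, t.2.2.1)) (ht : t.2.1 = 0)
    (h4 : t.2.2.2 = 4) (hb : b = X t.1 (t.2.2.1 - 1)) :
    ¬ (s.2.1 = 3 ∧ s.2.2.1 = t.2.2.1) ∧ b = X t.1 t.2.2.1 := by
  obtain ⟨-, r2⟩ := h
  rcases r2 with r2 | r2 | r2 | r2
  · exfalso; have := r2.1; omega
  · exfalso
    have := r2.2.1
    rw [ho] at this
    simp at this
  · obtain ⟨-, -, r2⟩ := r2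
    rcases r2 with r2 | r2 | r2
    · exfalso; have := r2.1; omega
    · exfalso; have := r2.1; omega
    · obtain ⟨-, r2⟩ := r2
      rcases r2 with r2 | r2 | r2
      · exfalso
        have := r2.2.2
        rw [hb] at this
        simp at this
      · refine ⟨?_, r2.2.2.2⟩
        have := r2.1
        omega
      · refine ⟨r2.1, ?_⟩
        rcases r2.2.2 with r4 | r4
        · exact r4
        · exfalso
          rw [hb] at r4
          simp at r4
  · exact absurd ho r2.2.2.1

/-- pages of the edges to the slots 4 and 11 of a row with code 3 -/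
lemma pr3 (h : PR ops X b s t) (hc : (opAt ops t.1).1 = 3) (ht : t.2.1 = 0)
    (h4 : t.2.2.2 = 4 ∨ t.2.2.2 = 11) (hb : b = !X t.1 t.2.2.1)
    (hx : X t.1 t.2.2.1 = X (t.1 - 1) t.2.2.1) :
    b = true ∧ (t.2.2.2 = 4 → ¬ (s.2.1 = 1 ∧ s.2.2.2 = 1 ∧ s.2.2.1 = t.2.2.1)) ∧
      (t.2.2.2 = 11 → ¬ (s.2.1 = 3 ∧ s.2.2.2 = 4 ∧ s.2.2.1 = t.2.2.1)) := by
  obtain ⟨-, r2⟩ := h
  rcases r2 with r2 | r2 | r2 | r2
  · exfalso; have := r2.1; omega
  · obtain ⟨-, -, r2⟩ := r2
    rcases r2 with ⟨r4, r2 | r2⟩ | ⟨r4, r2 | r2⟩ | r2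
    · exfalso
      have := r2.2.2.2
      rw [hb] at this
      simp at this
    · refine ⟨?_, fun _ => r2.1, fun h => by rw [r4] at h; exact absurd h (by norm_num)⟩
      rcases r2.2 with r5 | r5
      · exact r5
      · rw [hb, r5]; rfl
    · exfalso
      have := r2.2.2.2
      rw [hb, hx] at this
      simp at this
    · refine ⟨?_, fun h => by rw [r4] at h; exact absurd h (by norm_num), fun _ => r2.1⟩
      rcases r2.2 with r5 | r5
      · exact r5
      · rw [hb, hx, r5]; rfl
    · exfalso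
      rcases h4 with h4 | h4
      · exact r2.1 h4
      · exact r2.2.1 h4
  · rw [r2.2.1] at hc
    simp at hc
  · exact absurd hc r2.2.1

end

/-- MODULE SG5. -/
theorem sg_cT : M_cT := by
  intro K ops X hval hrun b s t s' t' hs ht hs' ht' hφ hp hp' hc
  rcases hφ with hT | hT
  · -- the first edge is local
    have hPT := pgHT hT hp
    obtain ⟨e1, e2, e3, e4, e5⟩ := hT
    obtain ⟨z, hz, z1, z2, z3, z4⟩ := inside e1 e2 e3 e4 hc
    clear hc
    rcases hz with rfl | rfl
    · -- a source inside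
      exfalso
      have h1 := src hp' z2
      rw [z1, z3] at h1
      have h2 := hPT.2
      rcases e5 with ⟨e5, e6, e7⟩ | ⟨e5, e6⟩
      · have h3 : (opAt ops s.1).1 = 2 := by rw [e5]
        clear e5
        omega
      · rcases h2 with h2 | h2
        · have := h2.1
          omega
        · rcases h1 with h1 | h1 | ⟨h1, h7 | h7 | h7⟩
          · omega
          · omega
          · omega
          · omega
          · have h8 := h7.2
            rw [h2.2] at h8
            simp at h8
    · -- a target inside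
      right; right; left
      rcases e5 with ⟨e5, e6, e7⟩ | ⟨e5, e6⟩
      · have h3 : (opAt ops s.1).1 = 2 := by rw [e5]
        have ho : opAt ops z.1 = (2, z.2.2.1) := by rw [z1, z3]; exact e5
        rcases tgt2 hp' z2 ho (by clear e5 ho; omega) (by clear e5 ho; omega) with h4 | h4
        · exfalso
          rcases hPT.2 with h5 | h5
          · rw [z1, z3] at h4
            rw [h5.2] at h4
            simp at h4
          · have := h5.1
            rw [h3] at this
            exact absurd this (by norm_num)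
        · exact ⟨⟨z1.symm, e2, z2, z3.symm, Or.inl ⟨e5, e6, Or.inr h4.1⟩⟩, hPT.2⟩
      · rcases tgt3 hp' z2 (by rw [z1]; exact e5) (by clear e5; omega) with h4 | h4
        · exfalso
          rcases hPT.2 with h5 | h5
          · have := h5.1
            rw [e5] at this
            exact absurd this (by norm_num)
          · rw [z1, z3] at h4
            rw [h5.2] at h4
            simp at h4
        · have h6 := h4.1
          exact ⟨⟨z1.symm, e2, z2, z3.symm, Or.inr ⟨e5, by clear e5; omega⟩⟩, hPT.2⟩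
  · -- the second edge is local
    have hPT := pgHT hT hp'
    obtain ⟨e1, e2, e3, e4, e5⟩ := hT
    obtain ⟨z, hz, z1, z2, z3, z4⟩ := inside' e1 e2 e3 e4 hc
    clear hc
    rcases hz with rfl | rfl
    · -- a source inside
      exfalso
      have h1 := src hp z2
      rw [z1, z3] at h1
      have h2 := hPT.2
      rcases e5 with ⟨e5, e6, e7⟩ | ⟨e5, e6⟩
      · have h3 : (opAt ops s'.1).1 = 2 := by rw [e5]
        clear e5
        omega
      · rcases h2 with h2 | h2
        · have := h2.1
          omega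
        · rcases h1 with h1 | h1 | ⟨h1, h7 | h7 | h7⟩
          · omega
          · omega
          · omega
          · omega
          · have h8 := h7.2
            rw [h2.2] at h8
            simp at h8
    · -- a target inside
      have hcol : t'.2.2.1 = z.2.2.1 := by rw [z3, e4]
      have hrow : t'.1 = z.1 := by rw [z1, e1]
      rcases e5 with ⟨e5, e6, e7⟩ | ⟨e5, e6⟩
      · -- code 2
        have h3 : (opAt ops s'.1).1 = 2 := by rw [e5]
        have ho : opAt ops z.1 = (2, z.2.2.1) := by rw [z1, z3]; exact e5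
        have hb : b = X s'.1 (s'.2.2.1 - 1) := by
          rcases hPT.2 with h5 | h5
          · exact h5.2
          · have := h5.1
            rw [h3] at this
            exact absurd this (by norm_num)
        rcases tgt2 hp z2 ho (by clear e5 ho; omega) (by clear e5 ho; omega) with h4 | ⟨h4, h5⟩
        · exfalso
          rw [z1, z3] at h4
          rw [hb] at h4
          simp at h4
        · have h8 : t'.2.2.2 = 8 := by clear e5 ho; omega
          obtain ⟨m1, m2, m3, m4⟩ := opAt_mem (ops := ops) (i := s'.1) (by rw [h3]; norm_num)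
          have hv := hval _ m4
          rw [e5] at hv
          have hst := hrun (s'.1 - 1) m2
          rw [m3, e5] at hst
          have hi : s'.1 - 1 + 1 = s'.1 := Nat.sub_add_cancel m1
          rw [hi] at hst
          obtain ⟨q1, q2⟩ := hst
          have v1 : s'.2.2.1 < K := hv.2.1
          have v2 : 0 < s'.2.2.1 := hv.2.2.2 rfl
          have q3 : X s'.1 (s'.2.2.1 - 1) = X (s'.1 - 1) (s'.2.2.1 - 1) :=
            q1 _ (lt_of_le_of_lt (Nat.sub_le _ _) v1) (Nat.sub_one_lt v2.ne').ne
          rcases h5 with h5 | h5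
          · -- a regular edge
            have hot : opAt ops t'.1 = (2, t'.2.2.1) := by rw [hcol, hrow]; exact ho
            have hTT : IsTT ops t' := ⟨e3, Or.inr (Or.inr (Or.inl ⟨h8, hot⟩))⟩
            have r3 := pr2 h5 ho z2 h4 (by rw [z1, z3]; exact hb)
            have hbb : b = !X (t'.1 - 1) t'.2.2.1 := by
              have k1 : X s'.1 s'.2.2.1 = b := by rw [r3.2, z1, z3]
              have k2 : X (s'.1 - 1) (s'.2.2.1 - 1) = b := by rw [← q3, hb]
              rw [k2, k1] at q2
              rw [← e1, ← e4]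
              exact Bool.eq_not.2 fun hcon => q2 ⟨hcon.symm, rfl⟩
            left
            exact ⟨hr8 h5.1 z2 h4 h8 hrow hcol hTT r3.1, Or.inr (Or.inr (Or.inl ⟨e3, hot,
              Or.inr (Or.inl ⟨h8, hbb⟩)⟩))⟩
          · -- a local edge
            have hss : s = s' := by
              have w := h5.1
              obtain ⟨w1, w2, w3, w4, w5⟩ := w
              have w6 : (opAt ops s.1).1 = 2 := by rw [w1, z1]; exact h3
              have w7 : s.2.2.2 = 1 := by
                rcases w5 with w5 | w5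
                · exact w5.2.1
                · have := w5.1
                  rw [w6] at this
                  exact absurd this (by norm_num)
              exact Prod.ext (by rw [w1, z1]) (Prod.ext (by rw [w2, e2])
                (Prod.ext (by rw [w4, z3]) (by rw [w7, e6])))
            rw [hss]
            exact hp'
      · -- code 3
        have hcz : (opAt ops z.1).1 = 3 := by rw [z1]; exact e5
        have hct : (opAt ops t'.1).1 = 3 := by rw [← e1]; exact e5
        have hb : b = !X s'.1 s'.2.2.1 := by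
          rcases hPT.2 with h5 | h5
          · have := h5.1
            rw [e5] at this
            exact absurd this (by norm_num)
          · exact h5.2
        rcases tgt3 hp z2 hcz (by clear e5; omega) with h4 | ⟨h4, h5⟩
        · exfalso
          rw [z1, z3] at h4
          rw [hb] at h4
          simp at h4
        · obtain ⟨m1, m2, m3, m4⟩ := opAt_mem (ops := ops) (i := s'.1) (by rw [e5]; norm_num)
          have h9 : (z.2.2.2 = 4 ∧ t'.2.2.2 = 3) ∨ (z.2.2.2 = 11 ∧ t'.2.2.2 = 12) := by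
            clear e5 hPT; omega
          have hTT : IsTT ops t' := by
            refine ⟨e3, ?_⟩
            rcases h9 with h9 | h9
            · exact Or.inr (Or.inr (Or.inr (Or.inl ⟨h9.2, hct⟩)))
            · exact Or.inr (Or.inr (Or.inr (Or.inr (Or.inl ⟨h9.2, hct⟩))))
          have hst := hrun (s'.1 - 1) m2
          rw [m3] at hst
          have hi : s'.1 - 1 + 1 = s'.1 := Nat.sub_add_cancel m1
          rw [hi] at hst
          have q3 : X s'.1 s'.2.2.1 = X (s'.1 - 1) s'.2.2.1 := by
            rcases hop : opAt ops s'.1 with ⟨c, k⟩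
            rw [hop] at hst e5
            simp only at e5
            subst e5
            exact hst.1 _ hs'.2.2.1
          rcases h5 with h5 | h5 | h5
          · -- a regular edge
            have r3 := pr3 h5 hcz z2 h4 (by rw [z1, z3]; exact hb) (by rw [z1, z3]; exact q3)
            left
            rcases h9 with h9 | h9
            · exact ⟨hr3 h5.1 z2 h9.1 h9.2 hrow hcol hTT (r3.2.1 h9.1), Or.inr (Or.inl ⟨e3, hct,
                Or.inr (Or.inr ⟨by rw [h9.2]; norm_num, by rw [h9.2]; norm_num, r3.1⟩)⟩)⟩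
            · exact ⟨hr12 h5.1 z2 h9.1 h9.2 hrow hcol hTT (r3.2.2 h9.1), Or.inr (Or.inl ⟨e3, hct,
                Or.inr (Or.inr ⟨by rw [h9.2]; norm_num, by rw [h9.2]; norm_num, r3.1⟩)⟩)⟩
          · -- a local edge
            have hss : s = s' := by
              have w := h5.1
              obtain ⟨w1, w2, w3, w4, w5⟩ := w
              have w6 : (opAt ops s.1).1 = 3 := by rw [w1, z1]; exact e5
              have w7 : s.2.2.2 = s'.2.2.2 := by
                rcases w5 with w5 | w5
                · have := w5.1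
                  rw [this] at w6
                  exact absurd w6 (by norm_num)
                · have w8 := w5.2
                  clear w5 e5 hPT h5
                  omega
              exact Prod.ext (by rw [w1, z1]) (Prod.ext (by rw [w2, e2])
                (Prod.ext (by rw [w4, z3]) w7))
            rw [hss]
            exact hp'
          · -- an edge of the constant
            right; right; right; left
            exact ⟨⟨h5.1.1, hct, hTT⟩, h5.2⟩

end Pool.Agent.Helper81.SC.LocT
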